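import Pool.Agent.H175R.Energy.Main

/-!
# The inertia bound
-/

set_option autoImplicit false

open scoped Matrix ComplexOrder

namespace Pool.Agent.H175R.Energy

variable {V : Type} [Fintype V] [DecidableEq V]

theorem card_filter_roots {A : Matrix V V ℝ} (hA : A.IsHermitian) (p : ℝ → Prop)
    [DecidablePred p] : (A.charpoly.roots.filter p).card =
      (Finset.univ.filter (fun i => p (hA.eigenvalues i))).card := by
  rw [hA.roots_charpoly_eq_eigenvalues, Multiset.filter_map, Multiset.card_map]
  rfl

/-- The inertia bound, in a signed form. -/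
theorem inertia {A : Matrix V V ℝ} (hA : A.IsHermitian) (s : Finset V)
    (hs : ∀ i ∈ s, ∀ j ∈ s, A i j = 0) (ε : ℝ) :
    (Finset.univ.filter (fun i => 0 < ε * hA.eigenvalues i)).card + s.card ≤ Fintype.card V := by
  by_contra hcon
  push Not at hcon
  set U : Matrix V V ℝ := (hA.eigenvectorUnitary : Matrix V V ℝ) with hU
  have hUU' : U * star U = 1 := Unitary.coe_mul_star_self _
  set I : Finset V := Finset.univ.filter (fun i => ¬ 0 < ε * hA.eigenvalues i) with hI
  have hcard : (Finset.univ.filter (fun i => 0 < ε * hA.eigenvalues i)).card + I.card =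
      Fintype.card V := by
    rw [hI, Finset.card_filter_add_card_filter_not, Finset.card_univ]
  have hlt : I.card < s.card := by omega
  -- extension by zero followed by the coordinates in the complementary eigenvectors
  let ext : ({i // i ∈ s} → ℝ) →ₗ[ℝ] (V → ℝ) :=
    { toFun := fun z v => if h : v ∈ s then z ⟨v, h⟩ else 0
      map_add' := by
        intro z w; funext v; by_cases h : v ∈ s <;> simp [h]
      map_smul' := by
        intro c z; funext v; by_cases h : v ∈ s <;> simp [h] }
  let f : ({i // i ∈ s} → ℝ) →ₗ[ℝ] ({i // i ∈ I} → ℝ) :=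
    (LinearMap.funLeft ℝ ℝ (fun i : {i // i ∈ I} => i.1)) ∘ₗ (Matrix.mulVecLin (star U)) ∘ₗ ext
  have hker : LinearMap.ker f ≠ ⊥ := by
    apply LinearMap.ker_ne_bot_of_finrank_lt
    simpa using hlt
  obtain ⟨z, hz, hz0⟩ := (Submodule.ne_bot_iff _).1 hker
  set w : V → ℝ := ext z with hw
  have hw0 : w ≠ 0 := by
    intro h
    apply hz0
    funext i
    have := congrFun h i.1
    simpa [hw, ext, i.2] using this
  set y : V → ℝ := star U *ᵥ w with hy
  have hy0 : ∀ i, ¬ 0 < ε * hA.eigenvalues i → y i = 0 := by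
    intro i hi
    have hmem : i ∈ I := by simp only [hI, Finset.mem_filter, Finset.mem_univ, true_and]; exact hi
    have h1 : f z = 0 := hz
    have := congrFun h1 ⟨i, hmem⟩
    simpa [f, hy, hw, LinearMap.funLeft_apply] using this
  have hyne : y ≠ 0 := by
    intro h
    apply hw0
    have : U *ᵥ y = w := by rw [hy, Matrix.mulVec_mulVec, hUU', Matrix.one_mulVec]
    rw [← this, h, Matrix.mulVec_zero]
  have hquad : w ⬝ᵥ (A *ᵥ w) = ∑ i, hA.eigenvalues i * y i ^ 2 := by
    have hspec : A = U * Matrix.diagonal (RCLike.ofReal ∘ hA.eigenvalues : V → ℝ) * star U := by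
      conv_lhs => rw [hA.spectral_theorem, Unitary.conjStarAlgAut_apply]
    have hT : star U = Uᵀ := by
      rw [Matrix.star_eq_conjTranspose, Matrix.conjTranspose_eq_transpose_of_trivial]
    conv_lhs => rw [hspec]
    rw [← Matrix.mulVec_mulVec, ← Matrix.mulVec_mulVec, ← hy, Matrix.dotProduct_mulVec,
      ← Matrix.mulVec_transpose, ← hT, ← hy]
    simp only [dotProduct, Matrix.mulVec_diagonal, Function.comp_apply, RCLike.ofReal_real_eq_id,
      id_eq]
    refine Finset.sum_congr rfl fun i _ => ?_
    ring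
  have hzero : w ⬝ᵥ (A *ᵥ w) = 0 := by
    simp only [dotProduct, Matrix.mulVec]
    refine Finset.sum_eq_zero fun i _ => ?_
    by_cases hi : i ∈ s
    · rw [Finset.sum_eq_zero, mul_zero]
      intro j _
      by_cases hj : j ∈ s
      · rw [hs i hi j hj, zero_mul]
      · have : w j = 0 := by simp [hw, ext, hj]
        rw [this, mul_zero]
    · have : w i = 0 := by simp [hw, ext, hi]
      rw [this, zero_mul]
  have hpos : 0 < ∑ i, (ε * hA.eigenvalues i) * y i ^ 2 := by
    have hnn : ∀ i, 0 ≤ (ε * hA.eigenvalues i) * y i ^ 2 := by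
      intro i
      by_cases h : 0 < ε * hA.eigenvalues i
      · exact mul_nonneg h.le (sq_nonneg _)
      · rw [hy0 i h]; simp
    obtain ⟨i, hi⟩ := Function.ne_iff.1 hyne
    have hi' : y i ≠ 0 := hi
    refine Finset.sum_pos' (fun i _ => hnn i) ⟨i, Finset.mem_univ _, ?_⟩
    by_cases h : 0 < ε * hA.eigenvalues i
    · positivity
    · exact absurd (hy0 i h) hi'
  have : ∑ i, (ε * hA.eigenvalues i) * y i ^ 2 = ε * ∑ i, hA.eigenvalues i * y i ^ 2 := by
    rw [Finset.mul_sum]
    refine Finset.sum_congr rfl fun i _ => ?_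
    ring
  rw [this, ← hquad, hzero, mul_zero] at hpos
  exact lt_irrefl _ hpos

theorem inertia_graph (G : SimpleGraph V) [DecidableRel G.Adj] (s : Finset V)
    (hs : G.IsIndepSet (s : Set V)) :
    (max (((G.adjMatrix ℝ).charpoly.roots.filter (fun x => 0 < x)).card)
      (((G.adjMatrix ℝ).charpoly.roots.filter (fun x => x < 0)).card)) + s.card ≤
        Fintype.card V := by
  have hA : (G.adjMatrix ℝ).IsHermitian := by
    ext i j; simpa using (G.isSymm_adjMatrix (α := ℝ)).apply i j
  have hz : ∀ i ∈ s, ∀ j ∈ s, G.adjMatrix ℝ i j = 0 := by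
    intro i hi j hj
    rw [SimpleGraph.adjMatrix_apply, if_neg]
    intro h
    exact hs hi hj h.ne h
  have h1 := inertia hA s hz 1
  have h2 := inertia hA s hz (-1)
  rw [card_filter_roots hA, card_filter_roots hA]
  simp only [one_mul, neg_mul, Left.neg_pos_iff] at h1 h2
  omega

end Pool.Agent.H175R.Energy
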