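import Pool.Agent.H175R.Energy.Hole

/-!
# Cliques and odd antiholes
-/

set_option autoImplicit false

open scoped Matrix ComplexOrder
open Filter Topology

namespace Pool.Agent.H175R.Energy

section corr

variable {k : ℕ} [NeZero k]

theorem cyc_total (M : Matrix (ZMod k) (ZMod k) ℝ) : ∑ d, cyc M d = ∑ i, ∑ j, M i j := by
  unfold cyc
  rw [Finset.sum_comm]
  refine Finset.sum_congr rfl fun i _ => ?_
  exact Equiv.sum_comp (Equiv.addLeft i) (fun j => M i j)

theorem corr_mean {M : Matrix (ZMod k) (ZMod k) ℝ} (hM : M.PosSemidef) {m : ℕ} (h : Fin m → ℝ)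
    (hsum : ∑ a, h a = 1) (f : Fin m → ZMod k) :
    (∑ i, ∑ j, M i j) / k ≤ ∑ a, ∑ b, h a * h b * cyc M (f b - f a) := by
  have hk : (k : ℝ) ≠ 0 := by exact_mod_cast NeZero.ne k
  set T : ℝ := ∑ i, ∑ j, M i j with hT
  have key : ∀ i : ZMod k, 0 ≤ ∑ a, ∑ b, h a * h b * M (i + f a) (i + f b) -
      (2 / k) * ∑ a, h a * ∑ j, M (i + f a) j + (1 / k) ^ 2 * T := by
    intro i
    have := psd_quad (hM.submatrix (Sum.elim (fun a : Fin m => i + f a) (fun j : ZMod k => j)))
      (Sum.elim h (fun _ => -(1 / (k : ℝ))))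
    simp only [Fintype.sum_sum_type, Matrix.submatrix_apply, Sum.elim_inl, Sum.elim_inr] at this
    refine this.trans_eq ?_
    rw [Finset.sum_add_distrib, Finset.sum_add_distrib]
    have e1 : ∑ a : Fin m, ∑ j : ZMod k, h a * -(1 / (k : ℝ)) * M (i + f a) j =
        -(1 / k) * ∑ a, h a * ∑ j, M (i + f a) j := by
      rw [Finset.mul_sum]
      refine Finset.sum_congr rfl fun a _ => ?_
      rw [← Finset.mul_sum]; ring
    have e2 : ∑ j : ZMod k, ∑ a : Fin m, -(1 / (k : ℝ)) * h a * M j (i + f a) =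
        -(1 / k) * ∑ a, h a * ∑ j, M (i + f a) j := by
      rw [Finset.sum_comm, Finset.mul_sum]
      refine Finset.sum_congr rfl fun a _ => ?_
      rw [Finset.mul_sum, Finset.mul_sum]
      refine Finset.sum_congr rfl fun j _ => ?_
      rw [psd_symm hM j]; ring
    have e3 : ∑ i : ZMod k, ∑ j : ZMod k, -(1 / (k : ℝ)) * -(1 / (k : ℝ)) * M i j =
        (1 / k) ^ 2 * T := by
      rw [hT, Finset.mul_sum]
      refine Finset.sum_congr rfl fun i _ => ?_
      rw [Finset.mul_sum]
      refine Finset.sum_congr rfl fun j _ => ?_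
      ring
    rw [e1, e2, e3]
    ring
  have h2 : 0 ≤ ∑ i : ZMod k, (∑ a, ∑ b, h a * h b * M (i + f a) (i + f b) -
      (2 / k) * ∑ a, h a * ∑ j, M (i + f a) j + (1 / k) ^ 2 * T) :=
    Finset.sum_nonneg fun i _ => key i
  rw [Finset.sum_add_distrib, Finset.sum_sub_distrib] at h2
  have s1 : ∑ i : ZMod k, ∑ a, ∑ b, h a * h b * M (i + f a) (i + f b) =
      ∑ a, ∑ b, h a * h b * cyc M (f b - f a) := by
    rw [Finset.sum_comm]
    refine Finset.sum_congr rfl fun a _ => ?_
    rw [Finset.sum_comm]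
    refine Finset.sum_congr rfl fun b _ => ?_
    rw [← Finset.mul_sum, cyc_shift]
  have s2 : ∑ i : ZMod k, (2 / (k : ℝ)) * ∑ a, h a * ∑ j, M (i + f a) j = (2 / k) * T := by
    rw [← Finset.mul_sum, Finset.sum_comm]
    congr 1
    have : ∀ a, ∑ i : ZMod k, h a * ∑ j, M (i + f a) j = h a * T := by
      intro a
      rw [← Finset.mul_sum]
      congr 1
      exact Equiv.sum_comp (Equiv.addRight (f a)) (fun i => ∑ j, M i j)
    rw [Finset.sum_congr rfl (fun a _ => this a), ← Finset.sum_mul, hsum, one_mul]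
  have s3 : ∑ _i : ZMod k, (1 / (k : ℝ)) ^ 2 * T = (1 / k) * T := by
    rw [Finset.sum_const, Finset.card_univ, ZMod.card, nsmul_eq_mul]
    field_simp
  rw [s1, s2, s3] at h2
  have : T / k = (1 / k) * T := by ring
  rw [this]
  have e : (2 / (k : ℝ)) * T = (1 / k) * T + (1 / k) * T := by ring
  rw [e] at h2
  linarith

theorem cyc_anti {k : ℕ} [NeZero k] (hk : 7 ≤ k) {P Q : Matrix (ZMod k) (ZMod k) ℝ}
    (hP : P.PosSemidef) (hQ : Q.PosSemidef) (h0 : cyc P 0 = cyc Q 0) (h1 : cyc P 1 = cyc Q 1)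
    (h2 : cyc P 2 = cyc Q 2 + k) (h3 : cyc P 3 = cyc Q 3 + k)
    (hT : ∑ i, ∑ j, P i j = ∑ i, ∑ j, Q i j + k * (k - 3)) : (k : ℝ) - 2 ≤ cyc P 0 := by
  have hkpos : (k : ℝ) ≠ 0 := by exact_mod_cast NeZero.ne k
  have a := corr_mean hP ![26 / 40, 19 / 40, -6 / 40, 1 / 40]
    (by simp only [Fin.sum_univ_four, Matrix.cons_val_zero, Matrix.cons_val_one,
      Matrix.cons_val]; norm_num) ![0, 1, 2, 3]
  have b := corr hQ ![1 / 8, -3 / 8, 3 / 8, -1 / 8] ![0, 1, 2, 3]
  have c1 := corr hP ![1, 1] ![0, 1]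
  have c2 := corr hP ![1, -1] ![0, 2]
  have c3 := corr hP ![1, -1] ![0, 3]
  have n1P := cyc_neg hP 1
  have n2P := cyc_neg hP 2
  have n3P := cyc_neg hP 3
  have n1Q := cyc_neg hQ 1
  have n2Q := cyc_neg hQ 2
  have n3Q := cyc_neg hQ 3
  have e1 : (0 : ZMod k) - 1 = -1 := by ring
  have e2 : (0 : ZMod k) - 2 = -2 := by ring
  have e3 : (0 : ZMod k) - 3 = -3 := by ring
  have e4 : (1 : ZMod k) - 0 = 1 := by ring
  have e5 : (2 : ZMod k) - 0 = 2 := by ring
  have e6 : (3 : ZMod k) - 0 = 3 := by ring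
  have e7 : (2 : ZMod k) - 1 = 1 := by ring
  have e8 : (3 : ZMod k) - 1 = 2 := by ring
  have e9 : (3 : ZMod k) - 2 = 1 := by ring
  have e10 : (1 : ZMod k) - 2 = -1 := by ring
  have e11 : (1 : ZMod k) - 3 = -2 := by ring
  have e12 : (2 : ZMod k) - 3 = -1 := by ring
  simp only [Fin.sum_univ_four, Fin.sum_univ_two, Matrix.cons_val_zero, Matrix.cons_val_one,
    Matrix.cons_val,
    sub_self, e1, e2, e3, e4, e5, e6, e7, e8, e9, e10, e11, e12, n1P, n2P, n3P, n1Q, n2Q, n3Q]
    at a b c1 c2 c3
  have hk' : (7 : ℝ) ≤ k := by exact_mod_cast hk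
  have hQT : 0 ≤ (∑ i, ∑ j, Q i j) / k := by
    refine div_nonneg ?_ (by linarith)
    have := psd_quad hQ (fun _ => 1)
    simpa using this
  have hTk : (∑ i, ∑ j, P i j) / k = (∑ i, ∑ j, Q i j) / k + (k - 3) := by
    rw [hT]; field_simp
  rw [hTk] at a
  linarith

end corr

variable {V : Type} [Fintype V] [DecidableEq V]

/-- The clique inequality, in an indexed form. -/
theorem clique_ineq {B P Q : Matrix V V ℝ} (hP : P.PosSemidef) (hQ : Q.PosSemidef)
    (hB : B = P - Q) (hd : ∀ i, B i i = 0) {ι : Type} [Fintype ι] [DecidableEq ι]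
    (f : ι → V) (hf : ∀ a b, a ≠ b → B (f a) (f b) = 1) : ∑ a, pt P (f a) ≤ 1 := by
  have hPQ : ∀ i j, P i j - Q i j = B i j := fun i j => by rw [hB]; rfl
  have hPs := hP.submatrix f
  have hQs := hQ.submatrix f
  have h := mom_quad hPs hQs (fun _ => 1)
  have hpt : ∀ a, pt (P.submatrix f f) a = pt P (f a) := fun a => rfl
  simp only [one_mul, hpt] at h
  have hs : ∀ a, ∑ b, mom (P.submatrix f f) (Q.submatrix f f) a b = pt P (f a) := by
    intro a
    rw [Finset.sum_eq_single a]
    · rw [mom_diag hPs, hpt]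
      simp only [Matrix.submatrix_apply]
      have := hPQ (f a) (f a)
      rw [hd] at this; linarith
    · intro b _ hb
      refine mom_zero hPs ?_
      simp only [Matrix.submatrix_apply]
      rw [hPQ, hf a b hb.symm]
    · intro h; exact absurd (Finset.mem_univ _) h
  rw [Finset.sum_congr rfl (fun a _ => hs a)] at h
  nlinarith [Finset.sum_nonneg (fun (a : ι) (_ : a ∈ Finset.univ) => pt_nonneg P (f a))]

theorem sum_pairs' (f : ℕ → ℝ) (m : ℕ) :
    ∑ j ∈ Finset.range (2 * m), f j =
      ∑ j ∈ Finset.range m, f (2 * j) + ∑ j ∈ Finset.range m, f (2 * j + 1) := by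
  rw [sum_pairs, Finset.sum_add_distrib]

theorem antihole_ineq {B P Q : Matrix V V ℝ} (hP : P.PosSemidef) (hQ : Q.PosSemidef)
    (hB : B = P - Q) (hd : ∀ i, B i i = 0) {k : ℕ} [NeZero k] (hk : 7 ≤ k) (hodd : Odd k)
    (c : ZMod k → V) (h0 : ∀ i, B (c i) (c (i + 1)) = 0)
    (h1 : ∀ i j, i ≠ j → j ≠ i + 1 → i ≠ j + 1 → B (c i) (c j) = 1) :
    ∑ i, pt P (c i) ≤ 2 := by
  have hPQ : ∀ i j, P i j - Q i j = B i j := fun i j => by rw [hB]; rfl
  have hdd : ∀ i, P i i = Q i i := fun i => by have := hPQ i i; rw [hd i] at this; linarith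
  have hcast : ∀ n : ℕ, 0 < n → n < k → (n : ZMod k) ≠ 0 := by
    intro n hn hnk h
    rw [ZMod.natCast_eq_zero_iff] at h
    exact absurd (Nat.le_of_dvd hn h) (by omega)
  by_cases hall : ∀ i, P (c i) (c i) < 1
  · have e : ∑ i, pt P (c i) = (k : ℝ) - cyc (P.submatrix c c) 0 := by
      have : ∀ i, pt P (c i) = 1 - P (c i) (c i) := fun i => by
        unfold pt; exact max_eq_left (by linarith [hall i])
      rw [Finset.sum_congr rfl (fun i _ => this i), Finset.sum_sub_distrib]
      simp [cyc, Matrix.submatrix_apply, ZMod.card]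
    have hPs := hP.submatrix c
    have hQs := hQ.submatrix c
    have c0 : cyc (P.submatrix c c) 0 = cyc (Q.submatrix c c) 0 := by
      unfold cyc
      refine Finset.sum_congr rfl fun i _ => ?_
      simp only [Matrix.submatrix_apply, add_zero]
      exact hdd _
    have c1 : cyc (P.submatrix c c) 1 = cyc (Q.submatrix c c) 1 := by
      unfold cyc
      refine Finset.sum_congr rfl fun i _ => ?_
      simp only [Matrix.submatrix_apply]
      have := hPQ (c i) (c (i + 1))
      rw [h0 i] at this; linarith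
    have cd : ∀ d : ZMod k, d ≠ 0 → d ≠ 1 → d ≠ -1 →
        cyc (P.submatrix c c) d = cyc (Q.submatrix c c) d + k := by
      intro d hd0 hd1 hd2
      unfold cyc
      have : ∀ i, P.submatrix c c i (i + d) = Q.submatrix c c i (i + d) + 1 := by
        intro i
        simp only [Matrix.submatrix_apply]
        have := hPQ (c i) (c (i + d))
        rw [h1 i (i + d) (fun h => hd0 (by
            have h' : i + 0 = i + d := by rw [add_zero]; exact h
            exact (add_left_cancel h').symm))
          (fun h => hd1 (add_left_cancel h)) (fun h => hd2 (by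
            have h' : i + 0 = i + (d + 1) := by rw [add_zero]; exact h.trans (add_assoc _ _ _)
            have := add_left_cancel h'
            exact eq_neg_of_add_eq_zero_left this.symm))] at this
        linarith
      rw [Finset.sum_congr rfl (fun i _ => this i), Finset.sum_add_distrib]
      simp [ZMod.card]
    have cm1 : cyc (P.submatrix c c) (-1) = cyc (Q.submatrix c c) (-1) := by
      rw [cyc_neg hPs, cyc_neg hQs, c1]
    have n1 : (1 : ZMod k) ≠ 0 := by
      have := hcast 1 (by norm_num) (by omega); simpa using this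
    have n2 : (2 : ZMod k) ≠ 0 := by
      have := hcast 2 (by norm_num) (by omega); simpa using this
    have n3 : (3 : ZMod k) ≠ 0 := by
      have := hcast 3 (by norm_num) (by omega); simpa using this
    have n4 : (4 : ZMod k) ≠ 0 := by
      have := hcast 4 (by norm_num) (by omega); simpa using this
    have hT : ∑ i, ∑ j, P.submatrix c c i j = ∑ i, ∑ j, Q.submatrix c c i j + k * (k - 3) := by
      rw [← cyc_total, ← cyc_total]
      have hdiff : ∀ d : ZMod k, cyc (P.submatrix c c) d = cyc (Q.submatrix c c) d +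
          (if d ∈ (Finset.univ \ {0, 1, -1} : Finset (ZMod k)) then (k : ℝ) else 0) := by
        intro d
        by_cases d0 : d = 0
        · subst d0; simp [c0]
        by_cases d1 : d = 1
        · subst d1; simp [c1]
        by_cases d2 : d = -1
        · subst d2; simp [cm1]
        · simp [d0, d1, d2, cd d d0 d1 d2]
      rw [Finset.sum_congr rfl (fun d _ => hdiff d), Finset.sum_add_distrib]
      congr 1
      rw [Finset.sum_ite_mem, Finset.univ_inter, Finset.sum_const, nsmul_eq_mul]
      have hcard : (Finset.univ \ {0, 1, -1} : Finset (ZMod k)).card = k - 3 := by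
        rw [Finset.card_sdiff_of_subset (Finset.subset_univ _), Finset.card_univ, ZMod.card]
        congr 1
        rw [Finset.card_eq_three]
        refine ⟨0, 1, -1, n1.symm, ?_, ?_, rfl⟩
        · intro h
          exact n1 (neg_eq_zero.1 h.symm)
        · intro h
          apply n2
          linear_combination h
      rw [hcard, Nat.cast_sub (by omega)]
      push_cast
      ring
    rw [e]
    have := cyc_anti hk hPs hQs c0 c1
      (cd 2 n2 (fun h => n1 (by linear_combination h)) (fun h => n3 (by linear_combination h)))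
      (cd 3 n3 (fun h => n2 (by linear_combination h)) (fun h => n4 (by linear_combination h))) hT
    linarith
  · push Not at hall
    obtain ⟨i0, hi0⟩ := hall
    obtain ⟨r, hr⟩ := hodd
    subst hr
    rw [sum_zmod (fun i => pt P (c i)) i0, Finset.sum_range_succ']
    have z : pt P (c (i0 + ((0 : ℕ) : ZMod (2 * r + 1)))) = 0 := by
      rw [Nat.cast_zero, add_zero]; unfold pt; exact max_eq_right (by linarith)
    rw [z, add_zero, sum_pairs' (fun j => pt P (c (i0 + ((j + 1 : ℕ) : ZMod (2 * r + 1)))))]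
    have main : ∀ o : ℕ, o ≤ 1 → ∑ j ∈ Finset.range r,
        pt P (c (i0 + ((2 * j + o + 1 : ℕ) : ZMod (2 * r + 1)))) ≤ 1 := by
      intro o ho
      rw [Finset.sum_range]
      refine clique_ineq hP hQ hB hd
        (fun j : Fin r => c (i0 + ((2 * (j : ℕ) + o + 1 : ℕ) : ZMod (2 * r + 1)))) ?_
      intro a b hab
      have hab' : (a : ℕ) ≠ b := fun h => hab (Fin.ext h)
      have ha := a.2
      have hb := b.2
      have hmod : ∀ u v : ℕ, u < 2 * r + 1 → v < 2 * r + 1 → u ≠ v →
          i0 + (u : ZMod (2 * r + 1)) ≠ i0 + (v : ZMod (2 * r + 1)) := by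
        intro u v hu hv huv h
        have h' := add_left_cancel h
        rw [ZMod.natCast_eq_natCast_iff', Nat.mod_eq_of_lt hu, Nat.mod_eq_of_lt hv] at h'
        exact huv h'
      have hmod1 : ∀ u v : ℕ, 0 < u → 0 < v → u < 2 * r + 1 → v < 2 * r + 1 → v ≠ u + 1 →
          i0 + (v : ZMod (2 * r + 1)) ≠ i0 + (u : ZMod (2 * r + 1)) + 1 := by
        intro u v hu0 hv0 hu hv huv h
        have h' : (v : ZMod (2 * r + 1)) = ((u + 1 : ℕ) : ZMod (2 * r + 1)) := by
          push_cast
          rw [add_assoc] at h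
          exact add_left_cancel h
        rw [ZMod.natCast_eq_natCast_iff', Nat.mod_eq_of_lt hv] at h'
        rcases Nat.lt_or_ge (u + 1) (2 * r + 1) with h2 | h2
        · rw [Nat.mod_eq_of_lt h2] at h'
          exact huv h'
        · have : u + 1 = 2 * r + 1 := by omega
          rw [this, Nat.mod_self] at h'
          omega
      exact h1 _ _ (hmod _ _ (by omega) (by omega) (by omega))
        (hmod1 _ _ (by omega) (by omega) (by omega) (by omega) (by omega))
        (hmod1 _ _ (by omega) (by omega) (by omega) (by omega) (by omega))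
    have m0 := main 0 (by norm_num)
    have m1 := main 1 le_rfl
    simp only [add_zero] at m0
    linarith

end Pool.Agent.H175R.Energy
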