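import Pool.Agent.H175R.Energy.Theta

/-!
# The point `x = (1 - diag A₊)₊` and its moment matrix
-/

set_option autoImplicit false

open scoped Matrix ComplexOrder
open Filter Topology

namespace Pool.Agent.H175R.Energy

variable {V : Type} [Fintype V] [DecidableEq V]

theorem psd_diag_nonneg {P : Matrix V V ℝ} (hP : P.PosSemidef) (i : V) : 0 ≤ P i i := by
  have := psd_entry hP i i
  have h2 := abs_nonneg (P i i)
  linarith

/-- The point. -/
noncomputable def pt (P : Matrix V V ℝ) (i : V) : ℝ := max (1 - P i i) 0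

/-- The moment matrix. -/
noncomputable def mom (P Q : Matrix V V ℝ) : Matrix V V ℝ :=
  fun i j => pt P i * pt P j * (1 + Q i j / (1 - P i j))

theorem pt_nonneg (P : Matrix V V ℝ) (i : V) : 0 ≤ pt P i := le_max_right _ _

theorem pt_le_one {P : Matrix V V ℝ} (hP : P.PosSemidef) (i : V) : pt P i ≤ 1 := by
  unfold pt
  have := psd_diag_nonneg hP i
  exact max_le (by linarith) (by norm_num)

theorem pt_pos {P : Matrix V V ℝ} {i : V} (h : pt P i ≠ 0) : P i i < 1 ∧ pt P i = 1 - P i i := by
  unfold pt at *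
  rcases le_or_gt (1 - P i i) 0 with h' | h'
  · rw [max_eq_right h'] at h; exact absurd rfl h
  · rw [max_eq_left h'.le]
    exact ⟨by linarith, rfl⟩

theorem one_sub_pos {P : Matrix V V ℝ} (hP : P.PosSemidef) {i j : V} (hi : pt P i ≠ 0)
    (hj : pt P j ≠ 0) : 0 < 1 - P i j := by
  have h1 := (pt_pos hi).1
  have h2 := (pt_pos hj).1
  have h3 := psd_entry hP i j
  have h4 := le_abs_self (P i j)
  linarith

theorem mom_eq {P Q : Matrix V V ℝ} (hP : P.PosSemidef) (i j : V) :
    mom P Q i j = pt P i * pt P j * (1 - (P i j - Q i j)) / (1 - P i j) := by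
  unfold mom
  by_cases hi : pt P i = 0
  · simp [hi]
  by_cases hj : pt P j = 0
  · simp [hj]
  have := one_sub_pos hP hi hj
  field_simp
  ring

theorem mom_symm {P Q : Matrix V V ℝ} (hP : P.PosSemidef) (hQ : Q.PosSemidef) (i j : V) :
    mom P Q i j = mom P Q j i := by
  unfold mom
  rw [psd_symm hP i j, psd_symm hQ i j]
  ring

theorem mom_diag {P Q : Matrix V V ℝ} (hP : P.PosSemidef) (i : V) (h : P i i = Q i i) :
    mom P Q i i = pt P i := by
  rw [mom_eq hP]
  by_cases hi : pt P i = 0
  · simp [hi]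
  have h1 := one_sub_pos hP hi hi
  rw [← h]
  rw [(pt_pos hi).2]
  field_simp
  ring

theorem mom_zero {P Q : Matrix V V ℝ} (hP : P.PosSemidef) {i j : V} (h : P i j - Q i j = 1) :
    mom P Q i j = 0 := by
  rw [mom_eq hP, h]; simp

theorem mom_nonneg {P Q : Matrix V V ℝ} (hP : P.PosSemidef) {i j : V} (h : P i j - Q i j ≤ 1) :
    0 ≤ mom P Q i j := by
  rw [mom_eq hP]
  by_cases hi : pt P i = 0
  · simp [hi]
  by_cases hj : pt P j = 0
  · simp [hj]
  have h1 := one_sub_pos hP hi hj
  refine div_nonneg (mul_nonneg (mul_nonneg (pt_nonneg P i) (pt_nonneg P j)) (by linarith)) h1.le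

theorem mom_nonpos {P Q : Matrix V V ℝ} (hP : P.PosSemidef) {i j : V} (h : 1 ≤ P i j - Q i j) :
    mom P Q i j ≤ 0 := by
  rw [mom_eq hP]
  by_cases hi : pt P i = 0
  · simp [hi]
  by_cases hj : pt P j = 0
  · simp [hj]
  have h1 := one_sub_pos hP hi hj
  refine div_nonpos_of_nonpos_of_nonneg
    (mul_nonpos_of_nonneg_of_nonpos (mul_nonneg (pt_nonneg P i) (pt_nonneg P j)) (by linarith)) h1.le

theorem mom_quad {P Q : Matrix V V ℝ} (hP : P.PosSemidef) (hQ : Q.PosSemidef) (y : V → ℝ) :
    (∑ i, y i * pt P i) ^ 2 ≤ ∑ i, ∑ j, y i * y j * mom P Q i j := by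
  have h := quad hP hQ (fun i => y i * pt P i) (fun i hi => by
    have : pt P i ≠ 0 := fun h => hi (by simp [h])
    exact (pt_pos this).1)
  have e : ∑ i, ∑ j, y i * y j * mom P Q i j = (∑ i, y i * pt P i) ^ 2 +
      ∑ i, ∑ j, (y i * pt P i) * (y j * pt P j) * (Q i j / (1 - P i j)) := by
    rw [sq, Finset.sum_mul_sum, ← Finset.sum_add_distrib]
    refine Finset.sum_congr rfl fun i _ => ?_
    rw [← Finset.sum_add_distrib]
    refine Finset.sum_congr rfl fun j _ => ?_
    unfold mom
    ring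
  rw [e]
  linarith

theorem mom_psd {P Q : Matrix V V ℝ} (hP : P.PosSemidef) (hQ : Q.PosSemidef) :
    (mom P Q).PosSemidef := by
  refine Matrix.PosSemidef.of_dotProduct_mulVec_nonneg ?_ ?_
  · ext i j
    simp only [Matrix.conjTranspose_apply, star_trivial]
    exact mom_symm hP hQ j i
  · intro y
    have h := mom_quad hP hQ y
    have e : star y ⬝ᵥ (mom P Q *ᵥ y) = ∑ i, ∑ j, y i * y j * mom P Q i j := by
      simp only [dotProduct, Matrix.mulVec, Pi.star_apply, star_trivial, Finset.mul_sum]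
      refine Finset.sum_congr rfl fun i _ => Finset.sum_congr rfl fun j _ => ?_
      ring
    rw [e]
    exact (sq_nonneg _).trans h

theorem sum_pt {P : Matrix V V ℝ} : (Fintype.card V : ℝ) - P.trace ≤ ∑ i, pt P i := by
  have : ∑ i, (1 - P i i) ≤ ∑ i, pt P i := Finset.sum_le_sum fun i _ => le_max_left _ _
  rw [Finset.sum_sub_distrib] at this
  simp only [Finset.sum_const, Finset.card_univ, nsmul_eq_mul, mul_one] at this
  exact this

/-- The edge inequality. -/
theorem edge_ineq {P Q : Matrix V V ℝ} (hP : P.PosSemidef) (hQ : Q.PosSemidef) {i j : V}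
    (hi : P i i = Q i i) (hj : P j j = Q j j) (hij : P i j - Q i j = 1) :
    pt P i + pt P j ≤ 1 := by
  have h1 := psd_entry hP i j
  have h2 := psd_entry hQ i j
  have h3 := le_abs_self (P i j)
  have h4 := neg_abs_le (Q i j)
  have h5 : 1 ≤ P i i + P j j := by linarith
  have h6 := psd_diag_nonneg hP i
  have h7 := psd_diag_nonneg hP j
  unfold pt
  rcases le_total (1 - P i i) 0 with a | a <;> rcases le_total (1 - P j j) 0 with b | b
  · rw [max_eq_right a, max_eq_right b]; norm_num
  · rw [max_eq_right a, max_eq_left b]; linarith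
  · rw [max_eq_left a, max_eq_right b]; linarith
  · rw [max_eq_left a, max_eq_left b]; linarith

end Pool.Agent.H175R.Energy
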