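import Pool.Agent.H175R.Energy.Body

/-!
# The odd hole inequalities
-/

set_option autoImplicit false

open scoped Matrix ComplexOrder
open Filter Topology

namespace Pool.Agent.H175R.Energy

section corr

variable {k : ℕ} [NeZero k]

/-- Cyclic diagonal sums. -/
noncomputable def cyc (M : Matrix (ZMod k) (ZMod k) ℝ) (d : ZMod k) : ℝ := ∑ i, M i (i + d)

theorem cyc_shift (M : Matrix (ZMod k) (ZMod k) ℝ) (a b : ZMod k) :
    ∑ i, M (i + a) (i + b) = cyc M (b - a) := by
  unfold cyc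
  rw [← Equiv.sum_comp (Equiv.addRight a) (fun i => M i (i + (b - a)))]
  refine Finset.sum_congr rfl fun i _ => ?_
  simp only [Equiv.coe_addRight]
  congr 1
  ring

theorem cyc_neg {M : Matrix (ZMod k) (ZMod k) ℝ} (hM : M.PosSemidef) (d : ZMod k) :
    cyc M (-d) = cyc M d := by
  have h := cyc_shift M d 0
  rw [zero_sub] at h
  rw [← h]
  unfold cyc
  refine Finset.sum_congr rfl fun i _ => ?_
  rw [psd_symm hM, add_zero]

theorem corr {M : Matrix (ZMod k) (ZMod k) ℝ} (hM : M.PosSemidef) {m : ℕ} (h : Fin m → ℝ)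
    (f : Fin m → ZMod k) : 0 ≤ ∑ a, ∑ b, h a * h b * cyc M (f b - f a) := by
  have key : ∀ i : ZMod k, 0 ≤ ∑ a, ∑ b, h a * h b * M (i + f a) (i + f b) := by
    intro i
    have := psd_quad (hM.submatrix (fun a => i + f a)) h
    simpa [Matrix.submatrix_apply] using this
  have h2 : 0 ≤ ∑ i : ZMod k, ∑ a, ∑ b, h a * h b * M (i + f a) (i + f b) :=
    Finset.sum_nonneg fun i _ => key i
  rw [Finset.sum_comm] at h2
  refine h2.trans_eq ?_
  refine Finset.sum_congr rfl fun a _ => ?_
  rw [Finset.sum_comm]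
  refine Finset.sum_congr rfl fun b _ => ?_
  rw [← Finset.mul_sum, cyc_shift]

end corr

/-- `k ≥ 7`. -/
theorem cyc_large {k : ℕ} [NeZero k] (hk : 7 ≤ k) {P Q : Matrix (ZMod k) (ZMod k) ℝ}
    (hP : P.PosSemidef) (hQ : Q.PosSemidef) (h0 : cyc P 0 = cyc Q 0) (h1 : cyc P 1 = cyc Q 1 + k)
    (h2 : cyc P 2 = cyc Q 2) (h3 : cyc P 3 = cyc Q 3) : ((k : ℝ) + 1) / 2 ≤ cyc P 0 := by
  have a := corr hP ![50, -70, 21, 15] ![0, 1, 2, 3]
  have b := corr hQ ![50, 70, 21, -15] ![0, 1, 2, 3]
  have n1P := cyc_neg hP 1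
  have n2P := cyc_neg hP 2
  have n3P := cyc_neg hP 3
  have n1Q := cyc_neg hQ 1
  have n2Q := cyc_neg hQ 2
  have n3Q := cyc_neg hQ 3
  have e1 : (0 : ZMod k) - 1 = -1 := by ring
  have e2 : (0 : ZMod k) - 2 = -2 := by ring
  have e3 : (0 : ZMod k) - 3 = -3 := by ring
  have e4 : (1 : ZMod k) - 0 = 1 := by ring
  have e5 : (2 : ZMod k) - 0 = 2 := by ring
  have e6 : (3 : ZMod k) - 0 = 3 := by ring
  have e7 : (2 : ZMod k) - 1 = 1 := by ring
  have e8 : (3 : ZMod k) - 1 = 2 := by ring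
  have e9 : (3 : ZMod k) - 2 = 1 := by ring
  have e10 : (1 : ZMod k) - 2 = -1 := by ring
  have e11 : (1 : ZMod k) - 3 = -2 := by ring
  have e12 : (2 : ZMod k) - 3 = -1 := by ring
  simp only [Fin.sum_univ_four, Matrix.cons_val_zero, Matrix.cons_val_one, Matrix.cons_val,
    sub_self, e1, e2, e3, e4, e5, e6, e7, e8, e9, e10, e11, e12, n1P, n2P, n3P, n1Q, n2Q, n3Q]
    at a b
  have hk' : (7 : ℝ) ≤ k := by exact_mod_cast hk
  linarith

/-- `k = 5`. -/
theorem cyc_five {P Q : Matrix (ZMod 5) (ZMod 5) ℝ}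
    (hP : P.PosSemidef) (hQ : Q.PosSemidef) (h0 : cyc P 0 = cyc Q 0)
    (h1 : cyc P 1 = cyc Q 1 + 5) (h2 : cyc P 2 = cyc Q 2) : (3 : ℝ) ≤ cyc P 0 := by
  have a := corr hP ![1, -3, 4, -3, 1] ![0, 1, 2, 3, 4]
  have a1 := corr hP ![1, -1] ![0, 1]
  have a2 := corr hP ![1, -1] ![0, 2]
  have b := corr hQ ![-1, 3, 6, 3, -1] ![0, 1, 2, 3, 4]
  have n1P : cyc P 4 = cyc P 1 := cyc_neg hP 1
  have n2P : cyc P 3 = cyc P 2 := cyc_neg hP 2
  have n1Q : cyc Q 4 = cyc Q 1 := cyc_neg hQ 1
  have n2Q : cyc Q 3 = cyc Q 2 := cyc_neg hQ 2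
  have e1 : (0 : ZMod 5) - 1 = 4 := by decide
  have e2 : (0 : ZMod 5) - 2 = 3 := by decide
  have e3 : (0 : ZMod 5) - 3 = 2 := by decide
  have e4 : (0 : ZMod 5) - 4 = 1 := by decide
  have f1 : (1 : ZMod 5) - 0 = 1 := by decide
  have f2 : (1 : ZMod 5) - 2 = 4 := by decide
  have f3 : (1 : ZMod 5) - 3 = 3 := by decide
  have f4 : (1 : ZMod 5) - 4 = 2 := by decide
  have g1 : (2 : ZMod 5) - 0 = 2 := by decide
  have g2 : (2 : ZMod 5) - 1 = 1 := by decide
  have g3 : (2 : ZMod 5) - 3 = 4 := by decide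
  have g4 : (2 : ZMod 5) - 4 = 3 := by decide
  have i1 : (3 : ZMod 5) - 0 = 3 := by decide
  have i2 : (3 : ZMod 5) - 1 = 2 := by decide
  have i3 : (3 : ZMod 5) - 2 = 1 := by decide
  have i4 : (3 : ZMod 5) - 4 = 4 := by decide
  have j1 : (4 : ZMod 5) - 0 = 4 := by decide
  have j2 : (4 : ZMod 5) - 1 = 3 := by decide
  have j3 : (4 : ZMod 5) - 2 = 2 := by decide
  have j4 : (4 : ZMod 5) - 3 = 1 := by decide
  simp only [Fin.sum_univ_five, Fin.sum_univ_two, Matrix.cons_val_zero, Matrix.cons_val_one,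
    Matrix.cons_val, sub_self, e1, e2, e3, e4, f1, f2, f3, f4, g1, g2, g3, g4, i1, i2, i3, i4,
    j1, j2, j3, j4, n1P, n2P, n1Q, n2Q] at a a1 a2 b
  linarith

theorem sum_pairs (f : ℕ → ℝ) (m : ℕ) :
    ∑ j ∈ Finset.range (2 * m), f j = ∑ j ∈ Finset.range m, (f (2 * j) + f (2 * j + 1)) := by
  induction m with
  | zero => simp
  | succ m ih =>
    rw [show 2 * (m + 1) = 2 * m + 1 + 1 by ring, Finset.sum_range_succ, Finset.sum_range_succ, ih,
      Finset.sum_range_succ]
    ring

theorem sum_zmod {k : ℕ} [NeZero k] (g : ZMod k → ℝ) (i0 : ZMod k) :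
    ∑ i, g i = ∑ j ∈ Finset.range k, g (i0 + j) := by
  rw [← Equiv.sum_comp (Equiv.addLeft i0) g]
  simp only [Equiv.coe_addLeft]
  refine (Finset.sum_bij (fun (j : ℕ) _ => (j : ZMod k)) ?_ ?_ ?_ ?_).symm
  · intro j _; exact Finset.mem_univ _
  · intro a ha b hb hab
    rw [Finset.mem_range] at ha hb
    have := (ZMod.natCast_eq_natCast_iff' a b k).1 hab
    rwa [Nat.mod_eq_of_lt ha, Nat.mod_eq_of_lt hb] at this
  · intro b _
    exact ⟨b.val, by rw [Finset.mem_range]; exact ZMod.val_lt b, ZMod.natCast_zmod_val b⟩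
  · intro j _; rfl

variable {V : Type} [Fintype V] [DecidableEq V]

theorem hole_ineq {B P Q : Matrix V V ℝ} (hP : P.PosSemidef) (hQ : Q.PosSemidef)
    (hB : B = P - Q) (hd : ∀ i, B i i = 0) {k : ℕ} [NeZero k] (hk : 5 ≤ k) (hodd : Odd k)
    (c : ZMod k → V) (h1 : ∀ i, B (c i) (c (i + 1)) = 1)
    (h0 : ∀ i j, j ≠ i + 1 → i ≠ j + 1 → B (c i) (c j) = 0) :
    ∑ i, pt P (c i) ≤ ((k : ℝ) - 1) / 2 := by
  have hPQ : ∀ i j, P i j - Q i j = B i j := fun i j => by rw [hB]; rfl
  have hdd : ∀ i, P i i = Q i i := fun i => by have := hPQ i i; rw [hd i] at this; linarith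
  by_cases hall : ∀ i, P (c i) (c i) < 1
  · have e : ∑ i, pt P (c i) = (k : ℝ) - cyc (P.submatrix c c) 0 := by
      have : ∀ i, pt P (c i) = 1 - P (c i) (c i) := fun i => by
        unfold pt; exact max_eq_left (by linarith [hall i])
      rw [Finset.sum_congr rfl (fun i _ => this i), Finset.sum_sub_distrib]
      simp [cyc, Matrix.submatrix_apply, ZMod.card]
    have hPs := hP.submatrix c
    have hQs := hQ.submatrix c
    have c0 : cyc (P.submatrix c c) 0 = cyc (Q.submatrix c c) 0 := by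
      unfold cyc
      refine Finset.sum_congr rfl fun i _ => ?_
      simp only [Matrix.submatrix_apply, add_zero]
      exact hdd _
    have c1 : cyc (P.submatrix c c) 1 = cyc (Q.submatrix c c) 1 + k := by
      unfold cyc
      have : ∀ i, P.submatrix c c i (i + 1) = Q.submatrix c c i (i + 1) + 1 := fun i => by
        simp only [Matrix.submatrix_apply]
        have := hPQ (c i) (c (i + 1))
        rw [h1 i] at this; linarith
      rw [Finset.sum_congr rfl (fun i _ => this i), Finset.sum_add_distrib]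
      simp [ZMod.card]
    have cd : ∀ d : ZMod k, d ≠ 1 → d ≠ -1 →
        cyc (P.submatrix c c) d = cyc (Q.submatrix c c) d := by
      intro d hd1 hd2
      unfold cyc
      refine Finset.sum_congr rfl fun i _ => ?_
      simp only [Matrix.submatrix_apply]
      have := hPQ (c i) (c (i + d))
      rw [h0 i (i + d) (fun h => hd1 (add_left_cancel h)) (fun h => hd2 (by
        have h' : i + 0 = i + (d + 1) := by rw [add_zero]; exact h.trans (add_assoc _ _ _)
        have := add_left_cancel h'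
        exact eq_neg_of_add_eq_zero_left this.symm))] at this
      linarith
    have hcast : ∀ n : ℕ, 0 < n → n < k → (n : ZMod k) ≠ 0 := by
      intro n hn hnk h
      rw [ZMod.natCast_eq_zero_iff] at h
      exact absurd (Nat.le_of_dvd hn h) (by omega)
    rw [e]
    rcases eq_or_lt_of_le hk with h5 | h6
    · subst h5
      have := cyc_five hPs hQs c0 (by exact_mod_cast c1) (cd 2 (by decide) (by decide))
      push_cast
      linarith
    · have h7 : 7 ≤ k := by
        rcases hodd with ⟨r, hr⟩; omega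
      have d2 : (2 : ZMod k) ≠ 1 ∧ (2 : ZMod k) ≠ -1 := by
        constructor
        · intro h
          have : ((1 : ℕ) : ZMod k) = 0 := by
            push_cast; linear_combination h
          exact hcast 1 (by norm_num) (by omega) this
        · intro h
          have : ((3 : ℕ) : ZMod k) = 0 := by
            push_cast; linear_combination h
          exact hcast 3 (by norm_num) (by omega) this
      have d3 : (3 : ZMod k) ≠ 1 ∧ (3 : ZMod k) ≠ -1 := by
        constructor
        · intro h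
          have : ((2 : ℕ) : ZMod k) = 0 := by
            push_cast; linear_combination h
          exact hcast 2 (by norm_num) (by omega) this
        · intro h
          have : ((4 : ℕ) : ZMod k) = 0 := by
            push_cast; linear_combination h
          exact hcast 4 (by norm_num) (by omega) this
      have := cyc_large h7 hPs hQs c0 c1 (cd 2 d2.1 d2.2) (cd 3 d3.1 d3.2)
      linarith
  · push Not at hall
    obtain ⟨i0, hi0⟩ := hall
    obtain ⟨r, hr⟩ := hodd
    subst hr
    rw [sum_zmod (fun i => pt P (c i)) i0, Finset.sum_range_succ']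
    have z : pt P (c (i0 + ((0 : ℕ) : ZMod (2 * r + 1)))) = 0 := by
      rw [Nat.cast_zero, add_zero]; unfold pt; exact max_eq_right (by linarith)
    rw [z, add_zero, sum_pairs (fun j => pt P (c (i0 + ((j + 1 : ℕ) : ZMod (2 * r + 1)))))]
    have : ∀ j ∈ Finset.range r,
        pt P (c (i0 + ((2 * j + 1 : ℕ) : ZMod (2 * r + 1)))) +
          pt P (c (i0 + ((2 * j + 1 + 1 : ℕ) : ZMod (2 * r + 1)))) ≤ 1 := by
      intro j _
      refine edge_ineq hP hQ (hdd _) (hdd _) ?_
      rw [hPQ]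
      have := h1 (i0 + ((2 * j + 1 : ℕ) : ZMod (2 * r + 1)))
      rw [add_assoc] at this
      rw [Nat.cast_add (2 * j + 1) 1, Nat.cast_one]
      exact this
    refine (Finset.sum_le_sum this).trans ?_
    simp

end Pool.Agent.H175R.Energy
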