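import Pool.Agent.H175R.Energy.Rank
import Pool.Agent.H175R.Energy.Antihole

/-!
# Graph energy versus the stable set polytope

For every finite simple graph the sum of the positive adjacency eigenvalues is at least
`n - ϑ'(G)`, and more precisely at least `n - ∑ x` for a point `x` of the (Schrijver) theta body
which satisfies all the odd hole and all the odd antihole inequalities.
-/

set_option autoImplicit false

open scoped Matrix ComplexOrder

namespace Pool.Agent.H175R.Energy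

/-- Feasible matrices for the Lovász number `ϑ(G)`. -/
def LovaszFeasible {V : Type} [Fintype V] [DecidableEq V] (G : SimpleGraph V)
    (Z : Matrix V V ℝ) : Prop :=
  Z.PosSemidef ∧ Z.trace = 1 ∧ ∀ i j, G.Adj i j → Z i j = 0

/-- The Lovász number `ϑ(G)`: the largest entry sum of a positive semidefinite matrix of trace one
which vanishes on the edges. -/
noncomputable def theta {V : Type} [Fintype V] [DecidableEq V] (G : SimpleGraph V) : ℝ :=
  sSup {t : ℝ | ∃ Z : Matrix V V ℝ, LovaszFeasible G Z ∧ t = ∑ i, ∑ j, Z i j}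

/-- Schrijver's number `ϑ'(G)`: the same with entrywise nonnegative matrices. -/
noncomputable def thetaPrime {V : Type} [Fintype V] [DecidableEq V] (G : SimpleGraph V) : ℝ :=
  sSup {t : ℝ | ∃ Z : Matrix V V ℝ, (LovaszFeasible G Z ∧ ∀ i j, 0 ≤ Z i j) ∧
    t = ∑ i, ∑ j, Z i j}

/-- `x` lies in Schrijver's version `TH'(G)` of the theta body. -/
def InThetaBody {V : Type} [Fintype V] [DecidableEq V] (G : SimpleGraph V) (x : V → ℝ) : Prop :=
  ∃ Z : Matrix V V ℝ, Z.PosSemidef ∧ (∀ i, Z i i = x i) ∧ (∀ i j, G.Adj i j → Z i j = 0) ∧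
    (∀ i j, 0 ≤ Z i j) ∧ (Z - Matrix.vecMulVec x x).PosSemidef

/-- `x` is nonnegative and satisfies every clique inequality, every odd hole inequality and every
odd antihole inequality of `G`. -/
def HoleIneqs {V : Type} [Fintype V] (G : SimpleGraph V) (x : V → ℝ) : Prop :=
  (∀ i, 0 ≤ x i) ∧
  (∀ K : Finset V, G.IsClique (K : Set V) → ∑ i ∈ K, x i ≤ 1) ∧
  (∀ (k : ℕ) [NeZero k], 5 ≤ k → Odd k → ∀ c : ZMod k → V, Function.Injective c →
    (∀ i j, G.Adj (c i) (c j) ↔ (j = i + 1 ∨ i = j + 1)) →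
      ∑ i, x (c i) ≤ ((k : ℝ) - 1) / 2) ∧
  (∀ (k : ℕ) [NeZero k], 7 ≤ k → Odd k → ∀ c : ZMod k → V, Function.Injective c →
    (∀ i j, G.Adj (c i) (c j) ↔ (i ≠ j ∧ j ≠ i + 1 ∧ i ≠ j + 1)) →
      ∑ i, x (c i) ≤ 2)

/-- The stable set polytope. -/
def stab {V : Type} [Fintype V] [DecidableEq V] (G : SimpleGraph V) : Set (V → ℝ) :=
  convexHull ℝ {y | ∃ s : Finset V, G.IsIndepSet (s : Set V) ∧ y = fun i => if i ∈ s then 1 else 0}

section

variable {V : Type} [Fintype V] [DecidableEq V]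

theorem sum_le_of_psd {Z : Matrix V V ℝ} (hZ : Z.PosSemidef) (h1 : Z.trace = 1) :
    ∑ i, ∑ j, Z i j ≤ Fintype.card V := by
  have h : ∀ i j, Z i j ≤ (Z i i + Z j j) / 2 := fun i j =>
    (le_abs_self _).trans (psd_entry hZ i j)
  have ht : ∑ i, Z i i = 1 := h1
  calc ∑ i, ∑ j, Z i j ≤ ∑ i : V, ∑ j : V, (Z i i + Z j j) / 2 :=
        Finset.sum_le_sum fun i _ => Finset.sum_le_sum fun j _ => h i j
    _ = Fintype.card V := by
        have : ∀ i : V, ∑ j : V, (Z i i + Z j j) / 2 = (Fintype.card V * Z i i + 1) / 2 := by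
          intro i
          rw [← Finset.sum_div, Finset.sum_add_distrib, ht]
          simp
        rw [Finset.sum_congr rfl (fun i _ => this i), ← Finset.sum_div, Finset.sum_add_distrib,
          ← Finset.mul_sum, ht]
        simp

theorem bdd (G : SimpleGraph V) :
    BddAbove {t : ℝ | ∃ Z : Matrix V V ℝ, LovaszFeasible G Z ∧ t = ∑ i, ∑ j, Z i j} := by
  refine ⟨Fintype.card V, ?_⟩
  rintro t ⟨Z, hZ, rfl⟩
  exact sum_le_of_psd hZ.1 hZ.2.1

theorem bdd' (G : SimpleGraph V) :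
    BddAbove {t : ℝ | ∃ Z : Matrix V V ℝ, (LovaszFeasible G Z ∧ ∀ i j, 0 ≤ Z i j) ∧
      t = ∑ i, ∑ j, Z i j} := by
  refine ⟨Fintype.card V, ?_⟩
  rintro t ⟨Z, hZ, rfl⟩
  exact sum_le_of_psd hZ.1.1 hZ.1.2.1

theorem theta_nonneg (G : SimpleGraph V) : 0 ≤ theta G := by
  refine Real.sSup_nonneg ?_
  rintro t ⟨Z, hZ, rfl⟩
  have := psd_quad hZ.1 (fun _ => 1)
  simpa using this

theorem thetaPrime_nonneg (G : SimpleGraph V) : 0 ≤ thetaPrime G := by
  refine Real.sSup_nonneg ?_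
  rintro t ⟨Z, hZ, rfl⟩
  exact Finset.sum_nonneg fun i _ => Finset.sum_nonneg fun j _ => hZ.2 i j

theorem scaled {Z : Matrix V V ℝ} {x : V → ℝ} (hZ : Z.PosSemidef) (hd : ∀ i, Z i i = x i)
    (hpos : 0 < ∑ i, x i) (hq : (∑ i, x i) ^ 2 ≤ ∑ i, ∑ j, Z i j) :
    ((∑ i, x i)⁻¹ • Z).PosSemidef ∧ ((∑ i, x i)⁻¹ • Z).trace = 1 ∧
      ∑ i, x i ≤ ∑ i, ∑ j, ((∑ i, x i)⁻¹ • Z) i j := by
  refine ⟨hZ.smul (inv_nonneg.2 hpos.le), ?_, ?_⟩
  · rw [Matrix.trace_smul]
    have : Z.trace = ∑ i, x i := Finset.sum_congr rfl fun i _ => hd i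
    rw [this, smul_eq_mul, inv_mul_cancel₀ hpos.ne']
  · simp only [Matrix.smul_apply, smul_eq_mul, ← Finset.mul_sum]
    rw [← div_eq_inv_mul, le_div_iff₀ hpos, ← sq]
    exact hq

theorem weighted (G : SimpleGraph V) (B : Matrix V V ℝ) (hB : B.IsSymm) (hd : ∀ i, B i i = 0)
    (h1 : ∀ i j, G.Adj i j → B i j = 1) : (Fintype.card V : ℝ) - theta G ≤ posSum B := by
  have hH : B.IsHermitian := by
    ext i j; simpa using hB.apply i j
  obtain ⟨P, Q, hP, hQ, hPQ, htr⟩ := split hH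
  have e : ∀ i j, P i j - Q i j = B i j := fun i j => by rw [hPQ]; rfl
  have hs := sum_pt (P := P)
  rw [htr] at hs
  rcases le_or_gt (∑ i, pt P i) 0 with h | h
  · have := theta_nonneg G
    linarith
  · have hdd : ∀ i, mom P Q i i = pt P i := fun i => mom_diag hP i (by
      have := e i i; rw [hd] at this; linarith)
    have hq := mom_quad hP hQ (fun _ => 1)
    simp only [one_mul] at hq
    obtain ⟨a, b, c⟩ := scaled (mom_psd hP hQ) hdd h hq
    have : ∑ i, ∑ j, ((∑ i, pt P i)⁻¹ • mom P Q) i j ≤ theta G := by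
      refine le_csSup (bdd G) ⟨_, ⟨a, b, ?_⟩, rfl⟩
      intro i j hij
      rw [Matrix.smul_apply, mom_zero hP (by rw [e, h1 i j hij]), smul_zero]
    linarith

theorem weighted' (G : SimpleGraph V) (B : Matrix V V ℝ) (hB : B.IsSymm) (hd : ∀ i, B i i = 0)
    (h1 : ∀ i j, G.Adj i j → B i j = 1) (hle : ∀ i j, B i j ≤ 1) :
    (Fintype.card V : ℝ) - thetaPrime G ≤ posSum B := by
  have hH : B.IsHermitian := by
    ext i j; simpa using hB.apply i j
  obtain ⟨P, Q, hP, hQ, hPQ, htr⟩ := split hH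
  have e : ∀ i j, P i j - Q i j = B i j := fun i j => by rw [hPQ]; rfl
  have hs := sum_pt (P := P)
  rw [htr] at hs
  rcases le_or_gt (∑ i, pt P i) 0 with h | h
  · have := thetaPrime_nonneg G
    linarith
  · have hdd : ∀ i, mom P Q i i = pt P i := fun i => mom_diag hP i (by
      have := e i i; rw [hd] at this; linarith)
    have hq := mom_quad hP hQ (fun _ => 1)
    simp only [one_mul] at hq
    obtain ⟨a, b, c⟩ := scaled (mom_psd hP hQ) hdd h hq
    have : ∑ i, ∑ j, ((∑ i, pt P i)⁻¹ • mom P Q) i j ≤ thetaPrime G := by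
      refine le_csSup (bdd' G) ⟨_, ⟨⟨a, b, ?_⟩, ?_⟩, rfl⟩
      · intro i j hij
        rw [Matrix.smul_apply, mom_zero hP (by rw [e, h1 i j hij]), smul_zero]
      · intro i j
        rw [Matrix.smul_apply, smul_eq_mul]
        exact mul_nonneg (inv_nonneg.2 h.le) (mom_nonneg hP (by rw [e]; exact hle i j))
    linarith

variable (G : SimpleGraph V) [DecidableRel G.Adj]

theorem body : ∃ x : V → ℝ, (Fintype.card V : ℝ) - ∑ i, x i ≤ posSum (G.adjMatrix ℝ) ∧
    InThetaBody G x ∧ HoleIneqs G x ∧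
    ∀ s : Finset V, ∃ t ⊆ s, ∑ i ∈ s, x i ≤ (t.card : ℝ) - posSum (restr (G.adjMatrix ℝ) t) := by
  have hH : (G.adjMatrix ℝ).IsHermitian := by
    ext i j; simpa using (G.isSymm_adjMatrix (α := ℝ)).apply i j
  obtain ⟨P, Q, hP, hQ, hPQ, htr⟩ := split hH
  have e : ∀ i j, P i j - Q i j = G.adjMatrix ℝ i j := fun i j => by rw [hPQ]; rfl
  have hs := sum_pt (P := P)
  rw [htr] at hs
  have hd : ∀ i, G.adjMatrix ℝ i i = 0 := fun i => by simp
  have h1 : ∀ i j, G.Adj i j → G.adjMatrix ℝ i j = 1 := fun i j h => by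
    simp [SimpleGraph.adjMatrix_apply, h]
  have h0 : ∀ i j, ¬ G.Adj i j → G.adjMatrix ℝ i j = 0 := fun i j h => by
    simp [SimpleGraph.adjMatrix_apply, h]
  have hle : ∀ i j, P i j - Q i j ≤ 1 := fun i j => by
    rw [e]
    by_cases h : G.Adj i j
    · rw [h1 i j h]
    · rw [h0 i j h]; norm_num
  have hdd : ∀ i, mom P Q i i = pt P i := fun i => mom_diag hP i (by
    have := e i i; rw [hd] at this; linarith)
  refine ⟨pt P, by linarith, ?_, ?_, ?_⟩
  · refine ⟨mom P Q, mom_psd hP hQ, hdd, fun i j hij => mom_zero hP (by rw [e, h1 i j hij]),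
      fun i j => mom_nonneg hP (hle i j), ?_⟩
    refine Matrix.PosSemidef.of_dotProduct_mulVec_nonneg ?_ ?_
    · ext i j
      simp only [Matrix.conjTranspose_apply, star_trivial, Matrix.sub_apply,
        Matrix.vecMulVec_apply]
      rw [mom_symm hP hQ j i]; ring
    · intro y
      have h := mom_quad hP hQ y
      have e1 : star y ⬝ᵥ ((mom P Q - Matrix.vecMulVec (pt P) (pt P)) *ᵥ y) =
          ∑ i, ∑ j, y i * y j * mom P Q i j - (∑ i, y i * pt P i) ^ 2 := by
        rw [sq, Finset.sum_mul_sum, ← Finset.sum_sub_distrib]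
        simp only [dotProduct, Matrix.mulVec, Pi.star_apply, star_trivial, Finset.mul_sum,
          Matrix.sub_apply, Matrix.vecMulVec_apply]
        refine Finset.sum_congr rfl fun i _ => ?_
        rw [← Finset.sum_sub_distrib]
        refine Finset.sum_congr rfl fun j _ => ?_
        ring
      rw [e1]
      linarith
  · refine ⟨pt_nonneg P, ?_, ?_, ?_⟩
    · intro K hK
      have := clique_ineq hP hQ hPQ hd (fun a : {i // i ∈ K} => a.1) (fun a b hab =>
        h1 _ _ (hK a.2 b.2 (fun h => hab (Subtype.ext h))))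
      rwa [Finset.sum_coe_sort K (pt P)] at this
    · intro k _ hk hodd c _ hc
      exact hole_ineq hP hQ hPQ hd hk hodd c (fun i => h1 _ _ ((hc _ _).2 (Or.inl rfl)))
        (fun i j hij hji => h0 _ _ (fun h => ((hc _ _).1 h).elim hij hji))
    · intro k _ hk hodd c _ hc
      exact antihole_ineq hP hQ hPQ hd hk hodd c
        (fun i => h0 _ _ (fun h => ((hc _ _).1 h).2.1 rfl))
        (fun i j hij h2 h3 => h1 _ _ ((hc _ _).2 ⟨hij, h2, h3⟩))
  · exact rank_ineq hPQ hP hQ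

theorem schrijver : (Fintype.card V : ℝ) - thetaPrime G ≤ posSum (G.adjMatrix ℝ) := by
  obtain ⟨x, hx, ⟨Z, hZ, hd, hadj, hnn, hZx⟩, -, -⟩ := body G
  rcases le_or_gt (∑ i, x i) 0 with h | h
  · have := thetaPrime_nonneg G
    linarith
  · have hq : (∑ i, x i) ^ 2 ≤ ∑ i, ∑ j, Z i j := by
      have := psd_quad hZx (fun _ => 1)
      simp only [one_mul, Matrix.sub_apply, Matrix.vecMulVec_apply, Finset.sum_sub_distrib] at this
      rw [sq, Finset.sum_mul_sum]
      linarith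
    obtain ⟨a, b, c⟩ := scaled hZ hd h hq
    have : ∑ i, ∑ j, ((∑ i, x i)⁻¹ • Z) i j ≤ thetaPrime G := by
      refine le_csSup (bdd' G) ⟨_, ⟨⟨a, b, ?_⟩, ?_⟩, rfl⟩
      · intro i j hij
        rw [Matrix.smul_apply, hadj i j hij, smul_zero]
      · intro i j
        rw [Matrix.smul_apply, smul_eq_mul]
        exact mul_nonneg (inv_nonneg.2 h.le) (hnn i j)
    linarith

theorem stab_sum {s : Finset V}
    (hmax : ∀ t : Finset V, G.IsIndepSet (t : Set V) → t.card ≤ s.card) {x : V → ℝ}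
    (hx : x ∈ stab G) : ∑ i, x i ≤ s.card := by
  have hconv : Convex ℝ {y : V → ℝ | ∑ i, y i ≤ s.card} := by
    intro y hy z hz a b ha hb hab
    simp only [Set.mem_ofPred_eq] at hy hz ⊢
    simp only [Pi.add_apply, Pi.smul_apply, smul_eq_mul, Finset.sum_add_distrib,
      ← Finset.mul_sum]
    nlinarith
  refine convexHull_min ?_ hconv hx
  rintro y ⟨t, ht, rfl⟩
  simp only [Set.mem_ofPred_eq]
  rw [Finset.sum_ite_mem, Finset.univ_inter, Finset.sum_const, nsmul_eq_mul, mul_one]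
  exact_mod_cast hmax t ht

end

end Pool.Agent.H175R.Energy
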