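import Pool.Agent.H175R.Energy.Body

/-!
# Minimality of the positive part, and the rank inequalities
-/

set_option autoImplicit false

open scoped Matrix ComplexOrder
open Filter Topology

namespace Pool.Agent.H175R.Energy

variable {V : Type} [Fintype V] [DecidableEq V]

theorem posSum_eq {A : Matrix V V ℝ} (hA : A.IsHermitian) :
    posSum A = ∑ i, max (hA.eigenvalues i) 0 := by
  unfold posSum
  rw [hA.roots_charpoly_eq_eigenvalues, Multiset.filter_map, Finset.sum_eq_multiset_sum]
  have h1 : ∀ s : Multiset V, (Multiset.map (fun i => max (hA.eigenvalues i) 0) s).sum =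
      (Multiset.map (RCLike.ofReal ∘ hA.eigenvalues : V → ℝ)
        (Multiset.filter ((fun x : ℝ => 0 < x) ∘ (RCLike.ofReal ∘ hA.eigenvalues)) s)).sum := by
    intro s
    induction s using Multiset.induction_on with
    | empty => simp
    | cons a s ih =>
      rw [Multiset.map_cons, Multiset.sum_cons, ih]
      by_cases h : 0 < hA.eigenvalues a
      · rw [Multiset.filter_cons_of_pos _ (by simpa using h), Multiset.map_cons,
          Multiset.sum_cons]
        simp [max_eq_left h.le]
      · rw [Multiset.filter_cons_of_neg _ (by simpa using h)]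
        simp [max_eq_right (not_lt.1 h)]
  exact (h1 _).symm

theorem posSum_nonneg (A : Matrix V V ℝ) : 0 ≤ posSum A := by
  unfold posSum
  refine Multiset.sum_nonneg fun x hx => ?_
  exact (Multiset.mem_filter.1 hx).2.le

/-- Among all ways of writing a symmetric matrix as a difference of two positive semidefinite
matrices, the spectral one has the first part of the least trace. -/
theorem posSum_le_trace {M P Q : Matrix V V ℝ} (hM : M.IsHermitian) (hP : P.PosSemidef)
    (hQ : Q.PosSemidef) (h : M = P - Q) : posSum M ≤ P.trace := by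
  set U : Matrix V V ℝ := (hM.eigenvectorUnitary : Matrix V V ℝ) with hU
  have hUU : star U * U = 1 := Unitary.coe_star_mul_self _
  have hUU' : U * star U = 1 := Unitary.coe_mul_star_self _
  have hd : star U * M * U = Matrix.diagonal (RCLike.ofReal ∘ hM.eigenvalues : V → ℝ) := by
    conv_lhs => rw [hM.spectral_theorem, Unitary.conjStarAlgAut_apply]
    rw [← hU]
    have : star U * (U * Matrix.diagonal (RCLike.ofReal ∘ hM.eigenvalues : V → ℝ) * star U) * U =
        (star U * U) * Matrix.diagonal (RCLike.ofReal ∘ hM.eigenvalues : V → ℝ) * (star U * U) := by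
      noncomm_ring
    rw [this, hUU, Matrix.one_mul, Matrix.mul_one]
  have hP' : (star U * P * U).PosSemidef := hP.conjTranspose_mul_mul_same U
  have hQ' : (star U * Q * U).PosSemidef := hQ.conjTranspose_mul_mul_same U
  have he : ∀ i, hM.eigenvalues i = (star U * P * U) i i - (star U * Q * U) i i := by
    intro i
    have h1 : star U * M * U = star U * P * U - star U * Q * U := by
      rw [h]; noncomm_ring
    have h2 := congrFun (congrFun (hd.symm.trans h1) i) i
    simpa using h2
  have ht : P.trace = (star U * P * U).trace := by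
    rw [Matrix.trace_mul_comm, ← Matrix.mul_assoc, hUU', Matrix.one_mul]
  rw [posSum_eq hM, ht]
  refine Finset.sum_le_sum fun i _ => ?_
  have a := psd_diag_nonneg hP' i
  have b := psd_diag_nonneg hQ' i
  refine max_le ?_ a
  show hM.eigenvalues i ≤ (star U * P * U) i i
  rw [he i]; linarith

/-- The principal submatrix on `t`. -/
def restr (B : Matrix V V ℝ) (t : Finset V) : Matrix {i // i ∈ t} {i // i ∈ t} ℝ :=
  fun i j => B i.1 j.1

theorem restr_psd {P : Matrix V V ℝ} (hP : P.PosSemidef) (t : Finset V) :
    (restr P t).PosSemidef :=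
  hP.submatrix (Subtype.val : {i // i ∈ t} → V)

/-- The rank inequalities. -/
theorem rank_ineq {B P Q : Matrix V V ℝ} (hB : B = P - Q) (hP : P.PosSemidef)
    (hQ : Q.PosSemidef) (s : Finset V) :
    ∃ t ⊆ s, ∑ i ∈ s, pt P i ≤ (t.card : ℝ) - posSum (restr B t) := by
  refine ⟨s.filter (fun i => P i i < 1), Finset.filter_subset _ _, ?_⟩
  set t := s.filter (fun i => P i i < 1) with ht
  have h1 : ∑ i ∈ s, pt P i = ∑ i ∈ t, (1 - P i i) := by
    rw [ht, Finset.sum_filter]
    refine Finset.sum_congr rfl fun i _ => ?_
    unfold pt
    split_ifs with h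
    · exact max_eq_left (by linarith)
    · exact max_eq_right (by linarith [not_lt.1 h])
  have h2 : ∑ i ∈ t, (1 - P i i) = (t.card : ℝ) - (restr P t).trace := by
    rw [Finset.sum_sub_distrib]
    congr 1
    · simp
    · unfold Matrix.trace restr
      simp only [Matrix.diag_apply]
      exact (Finset.sum_coe_sort t (fun i => P i i)).symm
  rw [h1, h2]
  have hPs := restr_psd hP t
  have hQs := restr_psd hQ t
  have e : restr B t = restr P t - restr Q t := by
    rw [hB]; rfl
  have hM : (restr B t).IsHermitian := by
    rw [e]; exact hPs.isHermitian.sub hQs.isHermitian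
  have := posSum_le_trace hM hPs hQs e
  linarith

end Pool.Agent.H175R.Energy
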