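import Mathlib

/-!
# Graph energy and Schrijver's theta number
-/

set_option autoImplicit false

open scoped Matrix ComplexOrder
open Filter Topology

namespace Pool.Agent.H175R.Energy

variable {V : Type} [Fintype V] [DecidableEq V]

/-- The sum of the positive eigenvalues (roots of the characteristic polynomial), with
multiplicity. -/
noncomputable def posSum (M : Matrix V V ℝ) : ℝ :=
  ((M.charpoly.roots).filter (fun x : ℝ => 0 < x)).sum

theorem split {A : Matrix V V ℝ} (hA : A.IsHermitian) :
    ∃ P Q : Matrix V V ℝ, P.PosSemidef ∧ Q.PosSemidef ∧ A = P - Q ∧ P.trace = posSum A := by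
  set U : Matrix V V ℝ := (hA.eigenvectorUnitary : Matrix V V ℝ) with hU
  have hUU : star U * U = 1 := Unitary.coe_star_mul_self _
  set dp : V → ℝ := fun i => max (hA.eigenvalues i) 0 with hdp
  set dn : V → ℝ := fun i => max (-hA.eigenvalues i) 0 with hdn
  have hd : Matrix.diagonal (RCLike.ofReal ∘ hA.eigenvalues : V → ℝ) =
      Matrix.diagonal dp - Matrix.diagonal dn := by
    rw [Matrix.diagonal_sub]
    congr 1
    funext i
    simp only [Function.comp_apply, hdp, hdn]
    rcases le_total 0 (hA.eigenvalues i) with h | h
    · rw [max_eq_left h, max_eq_right (by linarith)]; simp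
    · rw [max_eq_right h, max_eq_left (by linarith)]; simp
  refine ⟨U * Matrix.diagonal dp * star U, U * Matrix.diagonal dn * star U, ?_, ?_, ?_, ?_⟩
  · exact (Matrix.PosSemidef.diagonal (fun i => le_max_right _ _)).mul_mul_conjTranspose_same U
  · exact (Matrix.PosSemidef.diagonal (fun i => le_max_right _ _)).mul_mul_conjTranspose_same U
  · conv_lhs => rw [hA.spectral_theorem, Unitary.conjStarAlgAut_apply, hd]
    rw [← hU]
    noncomm_ring
  · rw [Matrix.trace_mul_comm, ← Matrix.mul_assoc, hUU, Matrix.one_mul, Matrix.trace_diagonal]
    unfold posSum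
    rw [hA.roots_charpoly_eq_eigenvalues, Multiset.filter_map, Finset.sum_eq_multiset_sum]
    have h1 : ∀ s : Multiset V, (Multiset.map dp s).sum =
        (Multiset.map (RCLike.ofReal ∘ hA.eigenvalues : V → ℝ)
          (Multiset.filter ((fun x : ℝ => 0 < x) ∘ (RCLike.ofReal ∘ hA.eigenvalues)) s)).sum := by
      intro s
      induction s using Multiset.induction_on with
      | empty => simp
      | cons a s ih =>
        rw [Multiset.map_cons, Multiset.sum_cons, ih]
        by_cases h : 0 < hA.eigenvalues a
        · rw [Multiset.filter_cons_of_pos _ (by simpa using h), Multiset.map_cons,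
            Multiset.sum_cons]
          simp [hdp, max_eq_left h.le]
        · rw [Multiset.filter_cons_of_neg _ (by simpa using h)]
          simp [hdp, max_eq_right (not_lt.1 h)]
    exact h1 _

theorem psd_quad {P : Matrix V V ℝ} (hP : P.PosSemidef) (y : V → ℝ) :
    0 ≤ ∑ i, ∑ j, y i * y j * P i j := by
  have h := hP.dotProduct_mulVec_nonneg y
  have e : star y ⬝ᵥ (P *ᵥ y) = ∑ i, ∑ j, y i * y j * P i j := by
    simp only [dotProduct, Matrix.mulVec, Pi.star_apply, star_trivial, Finset.mul_sum]
    refine Finset.sum_congr rfl fun i _ => Finset.sum_congr rfl fun j _ => ?_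
    ring
  rw [← e]
  exact h

theorem psd_symm {P : Matrix V V ℝ} (hP : P.PosSemidef) (i j : V) : P i j = P j i := by
  have := hP.isHermitian.apply j i
  simpa using this

theorem psd_entry {P : Matrix V V ℝ} (hP : P.PosSemidef) (i j : V) :
    |P i j| ≤ (P i i + P j j) / 2 := by
  by_cases hij : i = j
  · subst hij
    have h := psd_quad hP (Pi.single i 1)
    have h0 : 0 ≤ P i i := by
      simpa [Pi.single_apply, Finset.sum_ite_eq', ite_mul] using h
    rw [abs_of_nonneg h0]; linarith
  · have key : ∀ c : ℝ, 0 ≤ P i i + c * (P i j + P j i) + c * c * P j j := by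
      intro c
      have h := psd_quad hP (fun k => if k = i then 1 else if k = j then c else 0)
      have e : ∑ a, ∑ b, (if a = i then (1:ℝ) else if a = j then c else 0) *
          (if b = i then (1:ℝ) else if b = j then c else 0) * P a b =
          P i i + c * (P i j + P j i) + c * c * P j j := by
        have inner : ∀ a, ∑ b, (if a = i then (1:ℝ) else if a = j then c else 0) *
            (if b = i then (1:ℝ) else if b = j then c else 0) * P a b =
            (if a = i then (1:ℝ) else if a = j then c else 0) * (P a i + c * P a j) := by
          intro a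
          have : ∀ b, (if a = i then (1:ℝ) else if a = j then c else 0) *
            (if b = i then (1:ℝ) else if b = j then c else 0) * P a b =
            (if b = i then (if a = i then (1:ℝ) else if a = j then c else 0) * P a b else 0) +
            (if b = j then (if a = i then (1:ℝ) else if a = j then c else 0) * (c * P a b)
              else 0) := by
            intro b
            by_cases hb : b = i
            · have : ¬ b = j := fun h => hij (hb.symm.trans h)
              simp [hb, hij]
            · by_cases hb' : b = j
              · simp [hb', Ne.symm hij, mul_assoc, hb]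
              · simp [hb, hb']
          rw [Finset.sum_congr rfl (fun b _ => this b), Finset.sum_add_distrib,
            Finset.sum_ite_eq', Finset.sum_ite_eq']
          simp only [Finset.mem_univ, if_true]
          ring
        rw [Finset.sum_congr rfl (fun a _ => inner a)]
        have : ∀ a, (if a = i then (1:ℝ) else if a = j then c else 0) * (P a i + c * P a j) =
            (if a = i then (P a i + c * P a j) else 0) +
            (if a = j then c * (P a i + c * P a j) else 0) := by
          intro a
          by_cases ha : a = i
          · have : ¬ a = j := fun h => hij (ha.symm.trans h)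
            simp [ha, hij]
          · by_cases ha' : a = j
            · simp [ha', Ne.symm hij, ha]
            · simp [ha, ha']
        rw [Finset.sum_congr rfl (fun a _ => this a), Finset.sum_add_distrib,
          Finset.sum_ite_eq', Finset.sum_ite_eq']
        simp only [Finset.mem_univ, if_true]
        ring
      rw [e] at h
      exact h
    have h1 := key 1
    have h2 := key (-1)
    have hs := psd_symm hP j i
    rw [hs] at h1 h2
    rw [abs_le]
    constructor <;> linarith

/-- Hadamard powers. -/
noncomputable def hp (Q P : Matrix V V ℝ) : ℕ → Matrix V V ℝ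
  | 0 => Q
  | (k + 1) => (hp Q P k).hadamard P

theorem hp_apply (Q P : Matrix V V ℝ) (k : ℕ) (i j : V) : hp Q P k i j = Q i j * P i j ^ k := by
  induction k with
  | zero => simp [hp]
  | succ k ih => simp only [hp, Matrix.hadamard_apply, ih]; ring

theorem hp_psd {Q P : Matrix V V ℝ} (hQ : Q.PosSemidef) (hP : P.PosSemidef) (k : ℕ) :
    (hp Q P k).PosSemidef := by
  induction k with
  | zero => exact hQ
  | succ k ih => exact ih.hadamard hP

theorem quad {P Q : Matrix V V ℝ} (hP : P.PosSemidef) (hQ : Q.PosSemidef) (y : V → ℝ)
    (hy : ∀ i, y i ≠ 0 → P i i < 1) :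
    0 ≤ ∑ i, ∑ j, y i * y j * (Q i j / (1 - P i j)) := by
  have ht : Tendsto (fun N : ℕ => ∑ i, ∑ j, y i * y j * (Q i j * ∑ k ∈ Finset.range N, P i j ^ k))
      atTop (𝓝 (∑ i, ∑ j, y i * y j * (Q i j / (1 - P i j)))) := by
    refine tendsto_finsetSum _ fun i _ => tendsto_finsetSum _ fun j _ => ?_
    by_cases h : y i = 0 ∨ y j = 0
    · have : y i * y j = 0 := by rcases h with h | h <;> simp [h]
      simp [this]
    · push Not at h
      have h1 : |P i j| < 1 := by
        have := psd_entry hP i j
        have a := hy i h.1
        have b := hy j h.2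
        linarith
      refine Tendsto.const_mul _ ?_
      rw [div_eq_mul_inv]
      refine Tendsto.const_mul _ ?_
      exact (hasSum_geometric_of_abs_lt_one h1).tendsto_sum_nat
  refine ge_of_tendsto' ht fun N => ?_
  have : ∑ i, ∑ j, y i * y j * (Q i j * ∑ k ∈ Finset.range N, P i j ^ k) =
      ∑ k ∈ Finset.range N, ∑ i, ∑ j, y i * y j * hp Q P k i j := by
    rw [Finset.sum_comm' (t' := Finset.univ) (s' := fun _ => Finset.range N) (by simp)]
    refine Finset.sum_congr rfl fun i _ => ?_
    rw [Finset.sum_comm' (t' := Finset.univ) (s' := fun _ => Finset.range N) (by simp)]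
    refine Finset.sum_congr rfl fun j _ => ?_
    rw [Finset.mul_sum, Finset.mul_sum]
    refine Finset.sum_congr rfl fun k _ => ?_
    rw [hp_apply]
  rw [this]
  exact Finset.sum_nonneg fun k _ => psd_quad (hp_psd hQ hP k) y

end Pool.Agent.H175R.Energy
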